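import Mathlib

/-!
# Quasi-absolutely `2`-summing bilinear maps need not be strongly multiple `2`-summing

On `ℓ∞ × ℓ∞` put `T (x, y) = (x k * y l / (max k l + 1))` over all pairs `(k, l)`, with values in
`ℓ∞` of the pairs. Since `‖T (x, y)‖ ≤ (∑ |x k|² / (k + 1)²)^{1/2} ‖y‖` the map `T` is absolutely
`2`-summing in each variable. On the unit vectors the strongly multiple `2`-summing inequality
fails, since `∑ 1 / (max k l + 1)² = ∞` while `∑ |φ (e k, e l)|² ≤ 1` if `‖φ‖ ≤ 1`.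
-/

set_option autoImplicit false

namespace Pool.Agent.Results.MP_3dc8bf_an.QuasiNotStrong

open Finset ENNReal

section Defs

variable (𝕜 : Type) [RCLike 𝕜]

/-- The weak `p`-norm of a sequence: the supremum over the functionals `φ` of norm at most one of
`(∑ |φ (x j)| ^ p) ^ (1 / p)`. -/
noncomputable def weakNorm (p : ℝ) {E : Type} [NormedAddCommGroup E] [NormedSpace 𝕜 E]
    (x : ℕ → E) : ℝ≥0∞ :=
  ⨆ φ : E →L[𝕜] 𝕜, ⨆ _ : ‖φ‖ ≤ 1, (∑' j, ‖φ (x j)‖ₑ ^ p) ^ (1 / p)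

variable {n : ℕ} {E : Fin n → Type} [∀ i, NormedAddCommGroup (E i)] [∀ i, NormedSpace 𝕜 (E i)]
variable {F : Type} [NormedAddCommGroup F] [NormedSpace 𝕜 F]

/-- `T` is `k`-absolutely `p`-summing. -/
def IsAbsSummingAt (p : ℝ) (k : Fin n) (T : ContinuousMultilinearMap 𝕜 E F) : Prop :=
  ∃ C : NNReal, ∀ (a : ∀ i, E i) (x : ℕ → E k), weakNorm 𝕜 p x < ⊤ →
    (∑' j, ‖T (Function.update a k (x j))‖ₑ ^ p) ^ (1 / p) ≤
      C * weakNorm 𝕜 p x * ∏ i ∈ univ.erase k, ‖a i‖ₑ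

/-- `T` is quasi-absolutely `p`-summing. -/
def IsQuasiAbsSumming (p : ℝ) (T : ContinuousMultilinearMap 𝕜 E F) : Prop :=
  ∀ k, IsAbsSummingAt 𝕜 p k T

/-- `T` is strongly multiple `p`-summing. -/
def IsStronglyMultipleSumming (p : ℝ) (T : ContinuousMultilinearMap 𝕜 E F) : Prop :=
  ∃ C : NNReal, ∀ (m : ℕ) (x : ∀ k, Fin m → E k),
    (∑ j : Fin n → Fin m, ‖T (fun k => x k (j k))‖ₑ ^ p) ^ (1 / p) ≤
      C * ⨆ φ : ContinuousMultilinearMap 𝕜 E 𝕜, ⨆ _ : ‖φ‖ ≤ 1,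
        (∑ j : Fin n → Fin m, ‖φ (fun k => x k (j k))‖ₑ ^ p) ^ (1 / p)

end Defs

/-- In an inner product space signs can be chosen such that the square of the norm of the signed
sum is at least the sum of the squares. -/
theorem exists_signs (𝕜 : Type) [RCLike 𝕜] {H : Type} [NormedAddCommGroup H]
    [InnerProductSpace 𝕜 H] {ι : Type} [DecidableEq ι] (s : Finset ι) (v : ι → H) :
    ∃ ε : ι → 𝕜, (∀ i, ‖ε i‖ = 1) ∧ ∑ i ∈ s, ‖v i‖ ^ 2 ≤ ‖∑ i ∈ s, ε i • v i‖ ^ 2 := by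
  induction s using Finset.induction_on with
  | empty => exact ⟨fun _ => 1, fun _ => norm_one, by simp⟩
  | insert a s ha ih =>
    obtain ⟨ε, hε, h⟩ := ih
    set u := ∑ i ∈ s, ε i • v i with hu
    have key : ∀ c : 𝕜, ∑ i ∈ insert a s, (Function.update ε a c i) • v i = c • v a + u := by
      intro c
      rw [sum_insert ha, Function.update_self, hu]
      congr 1
      refine sum_congr rfl fun i hi => ?_
      rw [Function.update_of_ne (fun h => ha (by rw [← h]; exact hi))]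
    have hpar := parallelogram_law_with_norm 𝕜 u (v a)
    rw [sum_insert ha]
    by_cases hc : ‖v a‖ ^ 2 + ‖u‖ ^ 2 ≤ ‖v a + u‖ ^ 2
    · refine ⟨Function.update ε a 1, fun i => ?_, ?_⟩
      · by_cases hi : i = a
        · rw [hi, Function.update_self, norm_one]
        · rw [Function.update_of_ne hi]; exact hε i
      · rw [key, one_smul]
        linarith
    · refine ⟨Function.update ε a (-1), fun i => ?_, ?_⟩
      · by_cases hi : i = a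
        · rw [hi, Function.update_self, norm_neg, norm_one]
        · rw [Function.update_of_ne hi]; exact hε i
      · rw [key, neg_smul, one_smul]
        have h1 : ‖-v a + u‖ = ‖u - v a‖ := by congr 1; abel
        have h2 : ‖v a + u‖ = ‖u + v a‖ := by rw [add_comm]
        rw [h1]
        rw [h2] at hc
        push Not at hc
        nlinarith [hpar]

/-- `ℓ∞`. -/
abbrev E (𝕜 : Type) [RCLike 𝕜] (ι : Type) : Type := lp (fun _ : ι => 𝕜) ∞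

section Main

variable (𝕜 : Type) [RCLike 𝕜]

/-- The weights. -/
noncomputable def w (p : ℕ × ℕ) : ℝ := 1 / (((max p.1 p.2 : ℕ) : ℝ) + 1)

theorem w_pos (p : ℕ × ℕ) : 0 < w p := by unfold w; positivity

theorem w_le_one (p : ℕ × ℕ) : w p ≤ 1 := by
  unfold w
  rw [div_le_one (by positivity)]
  have : (0 : ℝ) ≤ ((max p.1 p.2 : ℕ) : ℝ) := Nat.cast_nonneg _
  linarith

theorem w_le_left (p : ℕ × ℕ) : w p ≤ 1 / ((p.1 : ℝ) + 1) := by
  unfold w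
  have : (p.1 : ℝ) ≤ ((max p.1 p.2 : ℕ) : ℝ) := by exact_mod_cast le_max_left _ _
  apply one_div_le_one_div_of_le (by positivity)
  linarith

theorem w_le_right (p : ℕ × ℕ) : w p ≤ 1 / ((p.2 : ℝ) + 1) := by
  unfold w
  have : (p.2 : ℝ) ≤ ((max p.1 p.2 : ℕ) : ℝ) := by exact_mod_cast le_max_right _ _
  apply one_div_le_one_div_of_le (by positivity)
  linarith

variable {𝕜}

theorem norm_Tval (x y : E 𝕜 ℕ) (p : ℕ × ℕ) :
    ‖((w p : ℝ) : 𝕜) * (x p.1 * y p.2)‖ = w p * (‖x p.1‖ * ‖y p.2‖) := by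
  rw [norm_mul, norm_mul, RCLike.norm_ofReal, abs_of_pos (w_pos p)]

theorem norm_Tval_le (x y : E 𝕜 ℕ) (p : ℕ × ℕ) :
    ‖((w p : ℝ) : 𝕜) * (x p.1 * y p.2)‖ ≤ ‖x‖ * ‖y‖ := by
  rw [norm_Tval]
  have h1 : ‖x p.1‖ ≤ ‖x‖ := lp.norm_apply_le_norm (by simp) x _
  have h2 : ‖y p.2‖ ≤ ‖y‖ := lp.norm_apply_le_norm (by simp) y _
  have h3 : ‖x p.1‖ * ‖y p.2‖ ≤ ‖x‖ * ‖y‖ := by gcongr
  calc w p * (‖x p.1‖ * ‖y p.2‖) ≤ 1 * (‖x p.1‖ * ‖y p.2‖) := by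
        gcongr; exact w_le_one p
    _ ≤ ‖x‖ * ‖y‖ := by rw [one_mul]; exact h3

/-- The values of the bilinear map. -/
noncomputable def Tval (x y : E 𝕜 ℕ) : E 𝕜 (ℕ × ℕ) :=
  ⟨fun p => ((w p : ℝ) : 𝕜) * (x p.1 * y p.2), by
    refine memℓp_infty ⟨‖x‖ * ‖y‖, ?_⟩
    rintro _ ⟨p, rfl⟩
    exact norm_Tval_le x y p⟩

theorem Tval_apply (x y : E 𝕜 ℕ) (p : ℕ × ℕ) :
    Tval x y p = ((w p : ℝ) : 𝕜) * (x p.1 * y p.2) := rfl

/-- The bilinear map as a multilinear map on two copies of `ℓ∞`. -/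
noncomputable def T : ContinuousMultilinearMap 𝕜 (fun _ : Fin 2 => E 𝕜 ℕ) (E 𝕜 (ℕ × ℕ)) :=
  MultilinearMap.mkContinuous
    { toFun := fun v => Tval (v 0) (v 1)
      map_update_add' := by
        intro _ m i x y
        apply lp.ext
        funext p
        rw [lp.coeFn_add, Pi.add_apply, Tval_apply, Tval_apply, Tval_apply]
        fin_cases i
        · simp; ring
        · simp; ring
      map_update_smul' := by
        intro _ m i c x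
        apply lp.ext
        funext p
        rw [lp.coeFn_smul, Pi.smul_apply, Tval_apply, Tval_apply]
        fin_cases i
        · simp; ring
        · simp; ring } 1 (by
    intro v
    rw [one_mul, Fin.prod_univ_two]
    refine lp.norm_le_of_forall_le (by positivity) fun p => ?_
    exact norm_Tval_le _ _ p)

theorem T_apply (v : Fin 2 → E 𝕜 ℕ) : (T (𝕜 := 𝕜)) v = Tval (v 0) (v 1) := rfl

/-- The squares of the weights `1 / (k + 1)`. -/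
noncomputable def c (k : ℕ) : ℝ≥0∞ := ENNReal.ofReal (1 / ((k : ℝ) + 1)) ^ (2 : ℝ)

theorem tsum_c_ne_top : ∑' k, c k ≠ ⊤ := by
  have h1 : Summable fun k : ℕ => (1 / ((k : ℝ) + 1)) ^ 2 := by
    have h2 : Summable fun k : ℕ => 1 / (k : ℝ) ^ 2 := Real.summable_one_div_nat_pow.2 (by norm_num)
    have h3 := (summable_nat_add_iff 1).2 h2
    refine h3.congr fun k => ?_
    push_cast
    rw [div_pow, one_pow]
  have h4 : ∀ k : ℕ, c k = ENNReal.ofReal ((1 / ((k : ℝ) + 1)) ^ 2) := by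
    intro k
    unfold c
    rw [ENNReal.rpow_two, ENNReal.ofReal_pow (by positivity)]
  simp_rw [h4]
  exact h1.tsum_ofReal_ne_top

theorem enorm_Tval_coord_le (x y : E 𝕜 ℕ) (p : ℕ × ℕ) :
    ‖Tval x y p‖ₑ ≤ (∑' k, c k * ‖x k‖ₑ ^ (2 : ℝ)) ^ (1 / 2 : ℝ) * ‖y‖ₑ := by
  have h1 : ‖Tval x y p‖ₑ = ENNReal.ofReal (w p) * (‖x p.1‖ₑ * ‖y p.2‖ₑ) := by
    rw [Tval_apply, enorm_mul, enorm_mul]
    congr 1
    rw [← ofReal_norm, RCLike.norm_ofReal, abs_of_pos (w_pos p)]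
  have h2 : ‖y p.2‖ₑ ≤ ‖y‖ₑ := by
    rw [← ofReal_norm, ← ofReal_norm]
    exact ENNReal.ofReal_le_ofReal (lp.norm_apply_le_norm (by simp) y _)
  have h3 : ENNReal.ofReal (w p) ≤ ENNReal.ofReal (1 / ((p.1 : ℝ) + 1)) :=
    ENNReal.ofReal_le_ofReal (w_le_left p)
  have h4 : ENNReal.ofReal (1 / ((p.1 : ℝ) + 1)) * ‖x p.1‖ₑ ≤
      (∑' k, c k * ‖x k‖ₑ ^ (2 : ℝ)) ^ (1 / 2 : ℝ) := by
    have h5 : ENNReal.ofReal (1 / ((p.1 : ℝ) + 1)) * ‖x p.1‖ₑ =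
        (c p.1 * ‖x p.1‖ₑ ^ (2 : ℝ)) ^ (1 / 2 : ℝ) := by
      unfold c
      rw [← ENNReal.mul_rpow_of_nonneg _ _ (by norm_num), ← ENNReal.rpow_mul]
      norm_num
    rw [h5]
    exact ENNReal.rpow_le_rpow (ENNReal.le_tsum p.1) (by norm_num)
  calc ‖Tval x y p‖ₑ = ENNReal.ofReal (w p) * (‖x p.1‖ₑ * ‖y p.2‖ₑ) := h1
    _ ≤ ENNReal.ofReal (1 / ((p.1 : ℝ) + 1)) * (‖x p.1‖ₑ * ‖y‖ₑ) := by gcongr
    _ = (ENNReal.ofReal (1 / ((p.1 : ℝ) + 1)) * ‖x p.1‖ₑ) * ‖y‖ₑ := by rw [mul_assoc]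
    _ ≤ _ := by gcongr

theorem enorm_le_of_coord {ι : Type} (z : E 𝕜 ι) (M : ℝ≥0∞) (h : ∀ p, ‖z p‖ₑ ≤ M) :
    ‖z‖ₑ ≤ M := by
  by_cases hM : M = ⊤
  · rw [hM]; exact le_top
  · have h1 : ‖z‖ ≤ M.toReal := by
      refine lp.norm_le_of_forall_le ENNReal.toReal_nonneg fun p => ?_
      rw [← toReal_enorm]
      exact ENNReal.toReal_mono hM (h p)
    rw [← ofReal_norm, ← ENNReal.ofReal_toReal hM]
    exact ENNReal.ofReal_le_ofReal h1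

theorem enorm_Tval_le (x y : E 𝕜 ℕ) :
    ‖Tval x y‖ₑ ≤ (∑' k, c k * ‖x k‖ₑ ^ (2 : ℝ)) ^ (1 / 2 : ℝ) * ‖y‖ₑ :=
  enorm_le_of_coord _ _ (enorm_Tval_coord_le x y)

theorem Tval_symm_enorm (x y : E 𝕜 ℕ) : ‖Tval x y‖ₑ ≤ ‖Tval y x‖ₑ := by
  refine enorm_le_of_coord _ _ fun p => ?_
  have h1 : Tval x y p = Tval y x p.swap := by
    rw [Tval_apply, Tval_apply]
    simp only [Prod.fst_swap, Prod.snd_swap]
    have : w p = w p.swap := by
      unfold w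
      simp only [Prod.fst_swap, Prod.snd_swap]
      rw [max_comm]
    rw [this, mul_comm (x p.1)]
  rw [h1, ← ofReal_norm, ← ofReal_norm]
  exact ENNReal.ofReal_le_ofReal (lp.norm_apply_le_norm (by simp) _ _)

/-- The evaluation functionals. -/
noncomputable def ev (k : ℕ) : E 𝕜 ℕ →L[𝕜] 𝕜 :=
  LinearMap.mkContinuous
    { toFun := fun x => x k
      map_add' := fun _ _ => rfl
      map_smul' := fun _ _ => rfl } 1 (fun x => by
        rw [one_mul]; exact lp.norm_apply_le_norm (by simp) x k)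

theorem ev_norm_le (k : ℕ) : ‖(ev k : E 𝕜 ℕ →L[𝕜] 𝕜)‖ ≤ 1 :=
  LinearMap.mkContinuous_norm_le _ zero_le_one _

theorem tsum_coord_le (x : ℕ → E 𝕜 ℕ) (k : ℕ) :
    ∑' j, ‖x j k‖ₑ ^ (2 : ℝ) ≤ weakNorm 𝕜 2 x ^ (2 : ℝ) := by
  have h1 : (∑' j, ‖(ev k : E 𝕜 ℕ →L[𝕜] 𝕜) (x j)‖ₑ ^ (2 : ℝ)) ^ (1 / 2 : ℝ) ≤
      weakNorm 𝕜 2 x :=
    le_iSup₂_of_le (ev k) (ev_norm_le k) le_rfl
  have h2 := ENNReal.rpow_le_rpow h1 (by norm_num : (0 : ℝ) ≤ 2)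
  rw [← ENNReal.rpow_mul] at h2
  norm_num at h2
  norm_num
  exact h2

theorem summing (x : ℕ → E 𝕜 ℕ) (a : E 𝕜 ℕ) :
    (∑' j, ‖Tval (x j) a‖ₑ ^ (2 : ℝ)) ^ (1 / 2 : ℝ) ≤
      (∑' k, c k) ^ (1 / 2 : ℝ) * weakNorm 𝕜 2 x * ‖a‖ₑ := by
  have h1 : ∀ j, ‖Tval (x j) a‖ₑ ^ (2 : ℝ) ≤
      (∑' k, c k * ‖x j k‖ₑ ^ (2 : ℝ)) * ‖a‖ₑ ^ (2 : ℝ) := by
    intro j
    have h2 := ENNReal.rpow_le_rpow (enorm_Tval_le (x j) a) (by norm_num : (0 : ℝ) ≤ 2)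
    rw [ENNReal.mul_rpow_of_nonneg _ _ (by norm_num), ← ENNReal.rpow_mul] at h2
    norm_num at h2
    norm_num
    exact h2
  have h3 : ∑' j, ‖Tval (x j) a‖ₑ ^ (2 : ℝ) ≤
      (∑' k, c k) * weakNorm 𝕜 2 x ^ (2 : ℝ) * ‖a‖ₑ ^ (2 : ℝ) := by
    calc ∑' j, ‖Tval (x j) a‖ₑ ^ (2 : ℝ)
        ≤ ∑' j, (∑' k, c k * ‖x j k‖ₑ ^ (2 : ℝ)) * ‖a‖ₑ ^ (2 : ℝ) :=
          ENNReal.tsum_le_tsum h1
      _ = (∑' k, c k * ∑' j, ‖x j k‖ₑ ^ (2 : ℝ)) * ‖a‖ₑ ^ (2 : ℝ) := by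
          rw [ENNReal.tsum_mul_right, ENNReal.tsum_comm]
          simp_rw [ENNReal.tsum_mul_left]
      _ ≤ (∑' k, c k * weakNorm 𝕜 2 x ^ (2 : ℝ)) * ‖a‖ₑ ^ (2 : ℝ) := by
          gcongr with k
          exact tsum_coord_le x k
      _ = (∑' k, c k) * weakNorm 𝕜 2 x ^ (2 : ℝ) * ‖a‖ₑ ^ (2 : ℝ) := by
          rw [ENNReal.tsum_mul_right]
  have h4 := ENNReal.rpow_le_rpow h3 (by norm_num : (0 : ℝ) ≤ 1 / 2)
  refine h4.trans (le_of_eq ?_)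
  rw [ENNReal.mul_rpow_of_nonneg _ _ (by norm_num), ENNReal.mul_rpow_of_nonneg _ _ (by norm_num),
    ← ENNReal.rpow_mul, ← ENNReal.rpow_mul]
  norm_num

theorem quasi : IsQuasiAbsSumming 𝕜 2 (T : ContinuousMultilinearMap 𝕜 (fun _ : Fin 2 => E 𝕜 ℕ) _) := by
  have hC : (∑' k, c k) ^ (1 / 2 : ℝ) ≠ ⊤ :=
    ENNReal.rpow_ne_top_of_nonneg (by norm_num) tsum_c_ne_top
  intro k
  refine ⟨((∑' k, c k) ^ (1 / 2 : ℝ)).toNNReal, fun a x _ => ?_⟩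
  rw [ENNReal.coe_toNNReal hC]
  fin_cases k
  · have h1 : (univ : Finset (Fin 2)).erase 0 = {1} := by decide
    have h2 : ∀ j, (T (𝕜 := 𝕜)) (Function.update a 0 (x j)) = Tval (x j) (a 1) := by
      intro j; rw [T_apply]; simp
    simp only [Fin.zero_eta, Fin.isValue, h1, prod_singleton, h2]
    exact summing x (a 1)
  · have h1 : (univ : Finset (Fin 2)).erase 1 = {0} := by decide
    have h2 : ∀ j, (T (𝕜 := 𝕜)) (Function.update a 1 (x j)) = Tval (a 0) (x j) := by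
      intro j; rw [T_apply]; simp
    simp only [Fin.mk_one, Fin.isValue, h1, prod_singleton, h2]
    refine le_trans ?_ (summing x (a 0))
    gcongr with j
    exact Tval_symm_enorm _ _

/-- The unit vectors. -/
noncomputable def e (k : ℕ) : E 𝕜 ℕ := lp.single ∞ k (1 : 𝕜)

theorem Tval_e (i j : ℕ) : w (i, j) ≤ ‖Tval (e i : E 𝕜 ℕ) (e j)‖ := by
  have h1 : Tval (e i : E 𝕜 ℕ) (e j) (i, j) = ((w (i, j) : ℝ) : 𝕜) := by
    rw [Tval_apply]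
    simp [e]
  calc w (i, j) = ‖Tval (e i : E 𝕜 ℕ) (e j) (i, j)‖ := by
        rw [h1, RCLike.norm_ofReal, abs_of_pos (w_pos _)]
    _ ≤ _ := lp.norm_apply_le_norm (by simp) _ _

theorem sum_signs_norm_le (m : ℕ) (ε : Fin m → 𝕜) (hε : ∀ i, ‖ε i‖ = 1) :
    ‖∑ i, ε i • (e (i : ℕ) : E 𝕜 ℕ)‖ ≤ 1 := by
  refine lp.norm_le_of_forall_le zero_le_one fun k => ?_
  rw [lp.coeFn_sum, Finset.sum_apply]
  simp only [lp.coeFn_smul, Pi.smul_apply, smul_eq_mul]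
  by_cases hk : k < m
  · rw [Finset.sum_eq_single (⟨k, hk⟩ : Fin m)]
    · simp [e, hε]
    · intro i _ hi
      have : (i : ℕ) ≠ k := fun h => hi (Fin.ext h)
      simp [e, Pi.single_eq_of_ne (Ne.symm this)]
    · intro h; exact absurd (mem_univ _) h
  · rw [Finset.sum_eq_zero]
    · simp
    · intro i _
      have : (i : ℕ) ≠ k := fun h => hk (h ▸ i.2)
      simp [e, Pi.single_eq_of_ne (Ne.symm this)]

theorem form_le (m : ℕ) (φ : ContinuousMultilinearMap 𝕜 (fun _ : Fin 2 => E 𝕜 ℕ) 𝕜)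
    (hφ : ‖φ‖ ≤ 1) :
    ∑ i : Fin m, ∑ j : Fin m, ‖φ ![e (i : ℕ), e (j : ℕ)]‖ ^ 2 ≤ 1 := by
  -- signs in the first variable
  let v : Fin m → EuclideanSpace 𝕜 (Fin m) := fun i =>
    WithLp.toLp 2 (fun j => φ ![e (i : ℕ), e (j : ℕ)])
  obtain ⟨ε, hε, h1⟩ := exists_signs 𝕜 (univ : Finset (Fin m)) v
  set x : E 𝕜 ℕ := ∑ i, ε i • (e (i : ℕ) : E 𝕜 ℕ) with hx
  have hx1 : ‖x‖ ≤ 1 := sum_signs_norm_le m ε hε
  have hup0 : ∀ y z : E 𝕜 ℕ, Function.update (![0, y] : Fin 2 → E 𝕜 ℕ) 0 z = ![z, y] := by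
    intro y z; ext1 i; fin_cases i <;> simp
  have hup1 : ∀ y z : E 𝕜 ℕ, Function.update (![y, 0] : Fin 2 → E 𝕜 ℕ) 1 z = ![y, z] := by
    intro y z; ext1 i; fin_cases i <;> simp
  have hlin1 : ∀ y : E 𝕜 ℕ, φ ![x, y] = ∑ i, ε i • φ ![e (i : ℕ), y] := by
    intro y
    have h2 := map_sum (φ.toContinuousLinearMap ![0, y] 0)
      (fun i : Fin m => ε i • (e (i : ℕ) : E 𝕜 ℕ)) univ
    simp only [map_smul, ContinuousMultilinearMap.toContinuousLinearMap_apply, hup0] at h2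
    exact h2
  have hlin2 : ∀ δ : Fin m → 𝕜, φ ![x, ∑ j, δ j • (e (j : ℕ) : E 𝕜 ℕ)] =
      ∑ j, δ j • φ ![x, e (j : ℕ)] := by
    intro δ
    have h2 := map_sum (φ.toContinuousLinearMap ![x, 0] 1)
      (fun i : Fin m => δ i • (e (i : ℕ) : E 𝕜 ℕ)) univ
    simp only [map_smul, ContinuousMultilinearMap.toContinuousLinearMap_apply, hup1] at h2
    exact h2
  have h4 : ∑ i : Fin m, ∑ j : Fin m, ‖φ ![e (i : ℕ), e (j : ℕ)]‖ ^ 2 ≤
      ∑ j : Fin m, ‖φ ![x, e (j : ℕ)]‖ ^ 2 := by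
    calc ∑ i : Fin m, ∑ j : Fin m, ‖φ ![e (i : ℕ), e (j : ℕ)]‖ ^ 2
        = ∑ i, ‖v i‖ ^ 2 := by
          refine sum_congr rfl fun i _ => ?_
          rw [EuclideanSpace.norm_sq_eq]
      _ ≤ ‖∑ i, ε i • v i‖ ^ 2 := h1
      _ = ∑ j : Fin m, ‖φ ![x, e (j : ℕ)]‖ ^ 2 := by
          rw [EuclideanSpace.norm_sq_eq]
          refine sum_congr rfl fun j _ => ?_
          rw [hlin1]
          congr 2
          simp [v]
  obtain ⟨δ, hδ, h5⟩ := exists_signs 𝕜 (univ : Finset (Fin m)) (fun j => φ ![x, e (j : ℕ)])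
  set y : E 𝕜 ℕ := ∑ i, δ i • (e (i : ℕ) : E 𝕜 ℕ) with hy
  have hy1 : ‖y‖ ≤ 1 := sum_signs_norm_le m δ hδ
  rw [← hlin2, ← hy] at h5
  have h6 : ‖φ ![x, y]‖ ≤ 1 := by
    have h7 := φ.le_opNorm ![x, y]
    rw [Fin.prod_univ_two] at h7
    simp only [Matrix.cons_val_zero, Matrix.cons_val_one] at h7
    calc ‖φ ![x, y]‖ ≤ ‖φ‖ * (‖x‖ * ‖y‖) := h7
      _ ≤ 1 * (1 * 1) := by gcongr
      _ = 1 := by norm_num
  calc _ ≤ _ := h4
    _ ≤ ‖φ ![x, y]‖ ^ 2 := h5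
    _ ≤ 1 ^ 2 := by gcongr
    _ = 1 := one_pow 2

theorem sum_w_sq (m : ℕ) :
    ∑ i ∈ range m, 1 / ((i : ℝ) + 1) ≤ ∑ i : Fin m, ∑ j : Fin m, w ((i : ℕ), (j : ℕ)) ^ 2 := by
  rw [← Fin.sum_univ_eq_sum_range (fun i => 1 / ((i : ℝ) + 1)) m]
  refine sum_le_sum fun i _ => ?_
  have h1 : ∑ j : Fin m, w ((i : ℕ), (j : ℕ)) ^ 2 =
      ∑ j ∈ range m, w ((i : ℕ), j) ^ 2 :=
    Fin.sum_univ_eq_sum_range (fun j => w ((i : ℕ), j) ^ 2) m
  rw [h1]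
  have h2 : range ((i : ℕ) + 1) ⊆ range m := by
    intro j hj
    rw [mem_range] at hj ⊢
    have := i.2
    omega
  calc 1 / (((i : ℕ) : ℝ) + 1) = ∑ j ∈ range ((i : ℕ) + 1), (1 / (((i : ℕ) : ℝ) + 1)) ^ 2 := by
        rw [sum_const, card_range, nsmul_eq_mul]
        push_cast
        have : (((i : ℕ) : ℝ) + 1) ≠ 0 := by positivity
        field_simp
    _ = ∑ j ∈ range ((i : ℕ) + 1), w ((i : ℕ), j) ^ 2 := by
        refine sum_congr rfl fun j hj => ?_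
        have hj' : j ≤ (i : ℕ) := by
          rw [mem_range] at hj; omega
        unfold w
        simp only
        rw [max_eq_left hj']
    _ ≤ ∑ j ∈ range m, w ((i : ℕ), j) ^ 2 :=
        sum_le_sum_of_subset_of_nonneg h2 fun _ _ _ => by positivity

theorem sum_fin_two {m : ℕ} {M : Type} [AddCommMonoid M] (f : (Fin 2 → Fin m) → M) :
    ∑ j : Fin 2 → Fin m, f j = ∑ i : Fin m, ∑ k : Fin m, f ![i, k] := by
  rw [← Fintype.sum_prod_type']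
  exact (Equiv.sum_comp (finTwoArrowEquiv (Fin m)).symm f).symm

theorem not_sm : ¬ IsStronglyMultipleSumming 𝕜 2
    (T : ContinuousMultilinearMap 𝕜 (fun _ : Fin 2 => E 𝕜 ℕ) _) := by
  rintro ⟨C, hC⟩
  have h1 : ∀ m : ℕ, ∑ i ∈ range m, 1 / ((i : ℝ) + 1) ≤ (C : ℝ) ^ 2 := by
    intro m
    have h2 := hC m (fun _ i => e (i : ℕ))
    have h3 : (⨆ φ : ContinuousMultilinearMap 𝕜 (fun _ : Fin 2 => E 𝕜 ℕ) 𝕜, ⨆ _ : ‖φ‖ ≤ 1,
        (∑ j : Fin 2 → Fin m, ‖φ (fun k => e (j k : ℕ))‖ₑ ^ (2 : ℝ)) ^ (1 / 2 : ℝ)) ≤ 1 := by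
      refine iSup₂_le fun φ hφ => ?_
      have h4 := form_le m φ hφ
      have h5 : (∑ j : Fin 2 → Fin m, ‖φ (fun k => e (j k : ℕ))‖ₑ ^ (2 : ℝ)) =
          ENNReal.ofReal (∑ i : Fin m, ∑ j : Fin m, ‖φ ![e (i : ℕ), e (j : ℕ)]‖ ^ 2) := by
        rw [sum_fin_two, ENNReal.ofReal_sum_of_nonneg (fun i _ => by positivity)]
        refine sum_congr rfl fun i _ => ?_
        rw [ENNReal.ofReal_sum_of_nonneg (fun i _ => by positivity)]
        refine sum_congr rfl fun j _ => ?_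
        have h6 : (fun k : Fin 2 => (e ((![i, j] : Fin 2 → Fin m) k : ℕ) : E 𝕜 ℕ)) =
            ![e (i : ℕ), e (j : ℕ)] := by
          ext1 k; fin_cases k <;> simp
        rw [h6, ENNReal.rpow_two, ← ofReal_norm, ENNReal.ofReal_pow (norm_nonneg _)]
      rw [h5]
      calc ENNReal.ofReal (∑ i : Fin m, ∑ j : Fin m, ‖φ ![e (i : ℕ), e (j : ℕ)]‖ ^ 2) ^ (1 / 2 : ℝ)
          ≤ (1 : ℝ≥0∞) ^ (1 / 2 : ℝ) := by
            refine ENNReal.rpow_le_rpow ?_ (by norm_num)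
            rw [← ENNReal.ofReal_one]
            exact ENNReal.ofReal_le_ofReal h4
        _ = 1 := ENNReal.one_rpow _
    have h7 : (∑ j : Fin 2 → Fin m,
        ‖(T (𝕜 := 𝕜)) (fun k => e (j k : ℕ))‖ₑ ^ (2 : ℝ)) ^ (1 / 2 : ℝ) ≤ C := by
      refine h2.trans ?_
      calc (C : ℝ≥0∞) * _ ≤ C * 1 := by gcongr
        _ = C := mul_one _
    have h8 := ENNReal.rpow_le_rpow h7 (by norm_num : (0 : ℝ) ≤ 2)
    rw [← ENNReal.rpow_mul] at h8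
    norm_num at h8
    have h9 : ENNReal.ofReal (∑ i : Fin m, ∑ j : Fin m, w ((i : ℕ), (j : ℕ)) ^ 2) ≤
        (C : ℝ≥0∞) ^ 2 := by
      refine le_trans ?_ h8
      rw [sum_fin_two, ENNReal.ofReal_sum_of_nonneg (fun i _ => by positivity)]
      refine sum_le_sum fun i _ => ?_
      rw [ENNReal.ofReal_sum_of_nonneg (fun i _ => by positivity)]
      refine sum_le_sum fun j _ => ?_
      have h6 : (fun k : Fin 2 => (e ((![i, j] : Fin 2 → Fin m) k : ℕ) : E 𝕜 ℕ)) =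
          ![e (i : ℕ), e (j : ℕ)] := by
        ext1 k; fin_cases k <;> simp
      rw [h6, T_apply, ← ofReal_norm, ENNReal.ofReal_pow (w_pos _).le]
      simp only [Matrix.cons_val_zero, Matrix.cons_val_one]
      gcongr
      exact Tval_e _ _
    have h10 : ∑ i : Fin m, ∑ j : Fin m, w ((i : ℕ), (j : ℕ)) ^ 2 ≤ (C : ℝ) ^ 2 := by
      have h11 : (C : ℝ≥0∞) ^ 2 = ENNReal.ofReal ((C : ℝ) ^ 2) := by
        rw [ENNReal.ofReal_pow (NNReal.coe_nonneg C), ENNReal.ofReal_coe_nnreal]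
      rw [h11, ENNReal.ofReal_le_ofReal_iff (by positivity)] at h9
      exact h9
    exact (sum_w_sq m).trans h10
  have h2 := Real.tendsto_sum_range_one_div_nat_succ_atTop
  obtain ⟨m, hm⟩ := (h2.eventually_gt_atTop ((C : ℝ) ^ 2)).exists
  linarith [h1 m]

end Main

theorem result (𝕜 : Type) [RCLike 𝕜] :
    ∃ (n : ℕ) (E : Fin n → Type) (_ : ∀ i, NormedAddCommGroup (E i))
      (_ : ∀ i, NormedSpace 𝕜 (E i)) (_ : ∀ i, CompleteSpace (E i))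
      (F : Type) (_ : NormedAddCommGroup F) (_ : NormedSpace 𝕜 F) (_ : CompleteSpace F)
      (T : ContinuousMultilinearMap 𝕜 E F),
      n = 2 ∧ IsQuasiAbsSumming 𝕜 2 T ∧ ¬ IsStronglyMultipleSumming 𝕜 2 T :=
  ⟨2, fun _ => E 𝕜 ℕ, inferInstance, inferInstance, inferInstance, E 𝕜 (ℕ × ℕ), inferInstance,
    inferInstance, inferInstance, T, rfl, quasi, not_sm⟩

end Pool.Agent.Results.MP_3dc8bf_an.QuasiNotStrong
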